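import Pool.Agent.WFP.Push

/-!
# Factors which are locally hypoabelian with respect to finitely many fields

If the factors `G (e j)`, `j ∈ J`, have nontrivial quotients which are locally hypoabelian with
respect to the finite family of fields `k c`, `c ∈ C`, then every finite set which normally generates
`* G i` has at least `|J| / |C|` elements.  For `|C| = 2` this is the conjectured bound.
-/

set_option autoImplicit false

namespace Pool.Agent.Results.MP_63a989_al.FewCharacteristics

open Pool.Agent.WFP

theorem result {ι : Type*} (G : ι → Type*) [∀ i, Group (G i)] {J : Type*} [Finite J]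
    (e : J → ι) (he : Function.Injective e) {C : Type*} [Finite C] (k : C → Type*)
    [∀ c, Field (k c)]
    (hG : ∀ j, ∃ (N : Subgroup (G (e j))) (_ : N.Normal), N ≠ ⊤ ∧ LocHypo k (G (e j) ⧸ N))
    (S : Finset (Monoid.CoprodI G))
    (hS : Subgroup.normalClosure (S : Set (Monoid.CoprodI G)) = ⊤) :
    Nat.card J ≤ Nat.card C * S.card :=
  weight_many G e he k hG S hS

end Pool.Agent.Results.MP_63a989_al.FewCharacteristics
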