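import Pool.Agent.helper75.SymW.Main

/-!
# The weight problem for free products is a problem about the free powers of one group

The free product of `n` copies of `Sym(ℕ)` has the least weight among all free products of `n`
nontrivial groups, so Q1 is equivalent to its case where `n` is odd and every factor is `Sym(ℕ)`.
-/

set_option autoImplicit false

namespace Pool.Agent.Results.MP_63a989_al.OneGroup

open Pool.Agent.H75SymW

theorem result :
    (∀ (n : ℕ) (G : Fin n → Type) [∀ i, Group (G i)] [∀ i, Nontrivial (G i)]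
      (S : Finset (Monoid.CoprodI G)),
      Subgroup.normalClosure (S : Set (Monoid.CoprodI G)) = ⊤ →
      ∃ S' : Finset (Monoid.CoprodI (fun _ : Fin n => Equiv.Perm ℕ)), S'.card ≤ S.card ∧
        Subgroup.normalClosure
          (S' : Set (Monoid.CoprodI (fun _ : Fin n => Equiv.Perm ℕ))) = ⊤) ∧
    ((∀ (n : ℕ) (G : Fin n → Type) [∀ i, Group (G i)] [∀ i, Nontrivial (G i)]
      (S : Finset (Monoid.CoprodI G)),
      Subgroup.normalClosure (S : Set (Monoid.CoprodI G)) = ⊤ → n ≤ 2 * S.card) ↔
    ∀ (m : ℕ) (S : Finset (Monoid.CoprodI (fun _ : Fin (2 * m + 1) => Equiv.Perm ℕ))),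
      Subgroup.normalClosure
        (S : Set (Monoid.CoprodI (fun _ : Fin (2 * m + 1) => Equiv.Perm ℕ))) = ⊤ →
      m < S.card) :=
  ⟨fun _ G _ _ S hS => least G S hS, main⟩

end Pool.Agent.Results.MP_63a989_al.OneGroup
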