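import Pool.Agent.WFP.CoreC

/-!
# Locally hypoabelian factors, relators with at most three of the factors each

`|J| ≤ 2 |S|` if the `G (e j)`, `j ∈ J`, have nontrivial quotients none of whose finitely generated
subgroups has a nontrivial perfect normal subgroup, and every element of the normally generating
finite set `S` involves at most three of the `G (e j)`.
-/

set_option autoImplicit false

namespace Pool.Agent.Results.MP_63a989_al.ThreePerRelator

open Pool.Agent.WFP

theorem result {ι : Type*} (G : ι → Type*) [∀ i, Group (G i)] {J : Type*} [Finite J]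
    (e : J → ι) (he : Function.Injective e)
    (hG : ∀ j, ∃ (N : Subgroup (G (e j))) (_ : N.Normal), N ≠ ⊤ ∧ LocHypoAb (G (e j) ⧸ N))
    (S : Finset (Monoid.CoprodI G))
    (hS : Subgroup.normalClosure (S : Set (Monoid.CoprodI G)) = ⊤)
    (h3 : ∀ s ∈ S, ∃ T : Finset J, T.card ≤ 3 ∧ s ∈ ⨆ (i : ι) (_ : ∀ j, e j = i → j ∈ T),
      (Monoid.CoprodI.of (M := G) (i := i)).range) :
    Nat.card J ≤ 2 * S.card :=
  weight_graph G e he hG S hS h3

end Pool.Agent.Results.MP_63a989_al.ThreePerRelator
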